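import Mathlib
import Pool.Agent.Lib.MP_d0f9e0_co.Bridge

set_option autoImplicit false

open Pool.Agent.Lib.MP_d0f9e0_co

namespace Pool.Agent.Lib.MP_d0f9e0_co.Spare.ElementaryAbelian

theorem result (d : ℕ) (hsq : ¬ IsSquare (d + 1)) (x : Fin (d ^ 2) → (Fin d → ℂ))
    (hx : IsMaximalETF d x) (M : ℕ) (A : Fin M → Matrix (Fin d) (Fin d) ℂ)
    (hA : ∀ a, IsSymmetry x (A a))
    (hne : ∀ a b, a ≠ b → ¬ ∃ c : ℂ, A b = c • A a)
    (h2 : ∀ a b, ∃ c : ℂ, (star (A a) * A b) ^ 2 = c • 1) :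
    M ≤ 2 * d := by
  have key := hx.toMaxETF.elemAb hsq (κ := Fin M)
    (fun a => toLIE (A a) (hA a).left (hA a).right) (fun a => (hA a).permutes) ?_ ?_
  · simpa using key
  · rintro a b hab ⟨c, hc⟩
    refine hne a b hab ⟨c, ?_⟩
    ext p q
    have h1 := hc (WithLp.toLp 2 (Pi.single q 1))
    simp only [toLIE_apply] at h1
    have h3 := congrArg (fun z : EuclideanSpace ℂ (Fin d) => z p) h1
    simpa using h3
  · intro a b
    obtain ⟨c, hc⟩ := h2 a b
    refine ⟨c, fun v => ?_⟩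
    have e : ∀ w : Fin d → ℂ, ((toLIE (A a) (hA a).left (hA a).right)⁻¹ *
        toLIE (A b) (hA b).left (hA b).right) (WithLp.toLp 2 w)
        = WithLp.toLp 2 ((star (A a) * A b).mulVec w) := by
      intro w
      rw [liq_mul_apply, toLIE_apply, toLIE_inv_apply, Matrix.mulVec_mulVec]
      rfl
    have h1 := e v.ofLp
    have h3 : (((toLIE (A a) (hA a).left (hA a).right)⁻¹ *
        toLIE (A b) (hA b).left (hA b).right) ^ 2) v
        = WithLp.toLp 2 (((star (A a) * A b) ^ 2).mulVec v.ofLp) := by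
      rw [sq, sq, liq_mul_apply]
      change ((toLIE (A a) (hA a).left (hA a).right)⁻¹ *
        toLIE (A b) (hA b).left (hA b).right) (((toLIE (A a) (hA a).left (hA a).right)⁻¹ *
        toLIE (A b) (hA b).left (hA b).right) (WithLp.toLp 2 v.ofLp)) = _
      rw [h1, e, Matrix.mulVec_mulVec]
    rw [h3, hc, Matrix.smul_mulVec, Matrix.one_mulVec]
    rfl

end Pool.Agent.Lib.MP_d0f9e0_co.Spare.ElementaryAbelian
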