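import Mathlib
import Pool.Agent.Lib.MP_d0f9e0_co.Bridge

set_option autoImplicit false

open Pool.Agent.Lib.MP_d0f9e0_co

namespace Pool.Agent.Lib.MP_d0f9e0_co.Spare.EvenOrderSymmetries

theorem result (d : ℕ) (hsq : ¬ IsSquare (d + 1)) (x : Fin (d ^ 2) → (Fin d → ℂ))
    (hx : IsMaximalETF d x) (U : Matrix (Fin d) (Fin d) ℂ) (hU : IsSymmetry x U)
    (hpow : ∃ m : ℕ, ∃ c : ℂ, U ^ (2 ^ m) = c • 1) (hns : ¬ ∃ c : ℂ, U = c • 1) :
    Even d ∧ U.trace = 0 ∧ ∀ i, ¬ ∃ c : ℂ, U.mulVec (x i) = c • x i := by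
  have hd : 1 ≤ d := by
    rcases Nat.eq_zero_or_pos d with h0 | h0
    · exfalso
      apply hsq
      rw [h0]
      exact ⟨1, rfl⟩
    · exact h0
  obtain ⟨m, c, hm⟩ := hpow
  have key := hx.toMaxETF.two_power hd (toLIE U hU.left hU.right) hU.permutes ?_ m ⟨c, ?_⟩ hsq
  · refine ⟨key.1, ?_, fun i hi => ?_⟩
    · rw [← key.2.1, toLIE_trace]
    · obtain ⟨c', hc'⟩ := hi
      exact key.2.2 i ⟨c', (fixes_iff U hU.left hU.right _ c').2 hc'⟩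
  · rintro ⟨c', hc'⟩
    exact hns ⟨c', eq_smul_one_of_forall U hU.left hU.right c' hc'⟩
  · intro v
    have h1 := toLIE_pow_apply U hU.left hU.right (2 ^ m) v.ofLp
    rw [hm, Matrix.smul_mulVec, Matrix.one_mulVec] at h1
    exact h1

end Pool.Agent.Lib.MP_d0f9e0_co.Spare.EvenOrderSymmetries
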