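import Mathlib
import Pool.Agent.Lib.MP_d0f9e0_co.Bridge
import Pool.Agent.Lib.MP_d0f9e0_co.FieldDisc
import Pool.Agent.Lib.MP_d0f9e0_co.LevelC

set_option autoImplicit false

open Pool.Agent.Lib.MP_d0f9e0_co

namespace Pool.Agent.Lib.MP_d0f9e0_co.Spare.FieldOfDefinition

theorem result (d : ℕ) (x : Fin (d ^ 2) → (Fin d → ℂ)) (hx : IsMaximalETF d x)
    (K : Subfield ℂ)
    (hK : ∀ i j k, ip (x i) (x j) * ip (x j) (x k) * ip (x k) (x i) ∈ K) :
    (∃ z ∈ K, z ^ 2 = (-1 : ℂ) ^ (d * (d - 1) / 2) * (if Even d then (d : ℂ) + 1 else d)) ∧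
    (d % 8 ∈ ({3, 4, 5, 6} : Finset ℕ) → ∃ a ∈ K, ∃ b ∈ K, a ^ 2 + b ^ 2 = (-1 : ℂ)) := by
  rcases Nat.eq_zero_or_pos d with h0 | hd
  · subst h0
    exact ⟨⟨1, one_mem K, by simp⟩, fun h => by simp at h⟩
  · have hcard : Fintype.card (Fin d × Fin d) = d ^ 2 := by
      rw [Fintype.card_prod, Fintype.card_fin]
      ring
    let e : Fin d × Fin d ≃ Fin (d ^ 2) := Fintype.equivFinOfCardEq hcard
    have hstar : ∀ u v : Fin d → ℂ, star (ip u v) = ip v u := FieldDisc.star_ipp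
    have h2 : ∀ i j : Fin d × Fin d, i ≠ j →
        ip (x (e i)) (x (e j)) * ip (x (e j)) (x (e i)) = 1 / ((d : ℂ) + 1) := by
      intro i j hij
      have h := hx.2 (e i) (e j) (fun h => hij (e.injective h))
      have h1 : ip (x (e i)) (x (e j)) * ip (x (e j)) (x (e i))
          = ((‖ip (x (e i)) (x (e j))‖ ^ 2 : ℝ) : ℂ) := by
        rw [← hstar (x (e i)) (x (e j))]
        exact_mod_cast Complex.mul_conj' (ip (x (e i)) (x (e j)))
      rw [h1, h, div_pow, one_pow, Real.sq_sqrt (by positivity)]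
      push_cast
      rfl
    refine ⟨FieldDisc.main_pairs hd (fun p => x (e p)) (fun i => hx.1 _) h2 K
      (fun i j k => hK _ _ _), fun hmod => ?_⟩
    have hmod' : d % 8 = 3 ∨ d % 8 = 4 ∨ d % 8 = 5 ∨ d % 8 = 6 := by
      simpa using hmod
    exact Level.main_level hd (fun p => x (e p)) (fun i => hx.1 _) h2 K
      (fun i j k => hK _ _ _) hmod'

end Pool.Agent.Lib.MP_d0f9e0_co.Spare.FieldOfDefinition
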