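import Mathlib
import Pool.Agent.Lib.MP_d0f9e0_co.Equality

set_option autoImplicit false

open Pool.Agent.Lib.MP_d0f9e0_co

namespace Pool.Agent.Lib.MP_d0f9e0_co.Spare.FixedLines

open Classical in
theorem result (d : ℕ) (hd : 1 ≤ d) (x : Fin (d ^ 2) → EuclideanSpace ℂ (Fin d))
    (hx1 : ∀ i, ‖x i‖ = 1)
    (hx2 : ∀ i j, i ≠ j → ‖(inner ℂ (x i) (x j) : ℂ)‖ = 1 / Real.sqrt ((d : ℝ) + 1))
    (U : EuclideanSpace ℂ (Fin d) ≃ₗᵢ[ℂ] EuclideanSpace ℂ (Fin d))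
    (hU : ∀ i, ∃ j, ∃ c : ℂ, U (x i) = c • x j)
    (hns : ¬ ∃ c : ℂ, ∀ v, U v = c • v) :
    (Set.ncard {i | ∃ c : ℂ, U (x i) = c • x i} : ℝ) ≤ (Real.sqrt ((d : ℝ) + 1) + 1) ^ 2 ∧
    ((Set.ncard {i | ∃ c : ℂ, U (x i) = c • x i} : ℝ) = (Real.sqrt ((d : ℝ) + 1) + 1) ^ 2 →
      ∃ (n : ℕ) (u : ℂ), d + 1 = n ^ 2 ∧ (∀ v, U (U v) = u ^ 2 • v) ∧
        (∀ i, (∃ c : ℂ, U (x i) = c • x i) → U (x i) = u • x i) ∧
        2 * Module.finrank ℂ (Module.End.eigenspace U.toLinearEquiv.toLinearMap u) = n * (n + 1) ∧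
        ∀ v, U v = u • v → ∑ k with U (x k) = u • x k, (inner ℂ (x k) v : ℂ) • x k
          = (2 * ((n : ℂ) + 1) / n) • v) := by
  have h : MaxETF d x := ⟨by simp, hx1, hx2⟩
  have hcard : (Set.ncard {i | ∃ c : ℂ, U (x i) = c • x i} : ℝ)
      = ‖LinearMap.trace ℂ _ (lin U)‖ ^ 2 := by
    rw [← h.card_fixed hd U hU]
    congr 1
    rw [Set.ncard_eq_toFinset_card']
    congr 1
    ext i
    simp [mem_fixedLines]
  have hb := h.trace_bound hd U hU hns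
  have hn0 : 0 ≤ Real.sqrt ((d : ℝ) + 1) + 1 := by positivity
  rw [hcard]
  refine ⟨pow_le_pow_left₀ (norm_nonneg _) hb 2, fun heq => ?_⟩
  have heq' : ‖LinearMap.trace ℂ _ (lin U)‖ = Real.sqrt ((d : ℝ) + 1) + 1 :=
    (pow_left_inj₀ (norm_nonneg _) hn0 two_ne_zero).1 heq
  obtain ⟨n, u, h1, h2, h3, h4, h5, h6⟩ := h.trace_equality hd U hU heq'
  refine ⟨n, u, h1, h3, h4, h5, fun v hv => ?_⟩
  rw [← h6 v hv]
  refine Finset.sum_congr ?_ fun _ _ => rfl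
  ext i
  rw [mem_fixedLines]
  simp only [Finset.mem_filter, Finset.mem_univ, true_and]
  exact ⟨fun hi => ⟨u, hi⟩, fun hi => h4 i hi⟩

end Pool.Agent.Lib.MP_d0f9e0_co.Spare.FixedLines
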