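import Mathlib
import Pool.Agent.Lib.MP_d0f9e0_co.OddOrder
import Pool.Agent.Lib.MP_d0f9e0_co.Bridge

set_option autoImplicit false

open Pool.Agent.Lib.MP_d0f9e0_co

namespace Pool.Agent.Lib.MP_d0f9e0_co.Spare.OddOrderPhases

/-- the normalised triple product of three vectors of `ℂ^d` -/
noncomputable def triple {d : ℕ} (x : Fin (d ^ 2) → (Fin d → ℂ)) (i j k : Fin (d ^ 2)) : ℂ :=
  (Real.sqrt ((d : ℝ) + 1) : ℂ) ^ 3 * (ip (x i) (x j) * ip (x j) (x k) * ip (x k) (x i))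

theorem result (d : ℕ) (hd : 2 ≤ d) (x : Fin (d ^ 2) → (Fin d → ℂ)) (hx : IsMaximalETF d x)
    (i j : Fin (d ^ 2)) (hij : i ≠ j) (ε : ℂ) (hε : ε = 1 ∨ ε = -1)
    (hT : ∀ k, k ≠ i → k ≠ j → ∃ m : ℕ, Odd m ∧ triple x i j k ^ m = ε) :
    d = 3 ∧ ε = -1 := by
  refine odd_order d hd _ hx.toMaxETF j i (Ne.symm hij) ε hε ?_
  intro k hkj hki
  obtain ⟨m, hm, h⟩ := hT k hki hkj
  refine ⟨m, hm, ?_⟩
  rw [← h, triple]
  simp only [inner_toLp]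
  congr 1
  ring

end Pool.Agent.Lib.MP_d0f9e0_co.Spare.OddOrderPhases
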