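import Mathlib
import Pool.Agent.Lib.MP_d0f9e0_co.Bridge
import Pool.Agent.Lib.MP_d0f9e0_co.RamifB

set_option autoImplicit false

open Pool.Agent.Lib.MP_d0f9e0_co NumberField

namespace Pool.Agent.Lib.MP_d0f9e0_co.Spare.RelativeDifferent

/-- the real elements of `K`, as a subfield of `K` -/
noncomputable def realPart (K : Subfield ℂ) : Subfield K :=
  Complex.ofRealHom.fieldRange.comap K.subtype

theorem result (d N : ℕ) (hN : d * (d + 1) / 2 + 3 ≤ N) (x : Fin N → (Fin d → ℂ))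
    (hunit : ∀ i, ip (x i) (x i) = 1)
    (hangle : ∀ i j, i ≠ j → ‖ip (x i) (x j)‖ = 1 / Real.sqrt ((d : ℝ) + 1))
    (K : Subfield ℂ) [NumberField K] (hconj : ∀ z ∈ K, star z ∈ K)
    (hK : ∀ i j k, ip (x i) (x j) * ip (x j) (x k) * ip (x k) (x i) ∈ K) :
    (d : 𝓞 K) ∈ differentIdeal (𝓞 (realPart K)) (𝓞 K) :=
  Ramif.mem_different K hN hunit hangle hconj hK

end Pool.Agent.Lib.MP_d0f9e0_co.Spare.RelativeDifferent
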